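import Pool.Agent.Q229.QP4.Mem
import Pool.Agent.Q231.GrTest

/-! # Project QP4 (helper229), membership in NP (helper224) -/

set_option autoImplicit false

namespace Pool.Agent.Q224.QP4

open Pool.Agent.NPC Pool.Agent.NPC.H634R2 Pool.Agent.H619R2.QP Pool.Agent.Q231.Gr

/-- the position of a vertex, read off from the certificate -/
def posW (w : List (ℕ × ℕ)) (v : ℕ) : ℕ := ((w.filter (fun p => decide (p.1 = v))).head?.getD (0, 0)).2

/-- the test for crossing chords -/
def crB (a b c d : ℕ) : Bool :=
  (decide (min a b < min c d) && (decide (min c d < max a b) && decide (max a b < max c d))) ||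
  (decide (min c d < min a b) && (decide (min a b < max c d) && decide (max c d < max a b)))

theorem crB_iff {a b c d : ℕ} : crB a b c d = true ↔ cr (a, b) (c, d) := by
  unfold crB cr
  simp only [Bool.or_eq_true, Bool.and_eq_true, decide_eq_true_eq]

/-- the test for crossing edges -/
def crW (w : List (ℕ × ℕ)) (e f : ℕ × ℕ) : Bool := crB (posW w e.1) (posW w e.2) (posW w f.1) (posW w f.2)

theorem crW_iff {w : List (ℕ × ℕ)} {e f : ℕ × ℕ} : crW w e f = true ↔ Cr (posW w) e f := by
  unfold crW Cr
  exact crB_iff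

/-- the families of `j` pairwise crossing edges -/
def fam (E w : List (ℕ × ℕ)) : ℕ → List (List (ℕ × ℕ))
  | 0 => [[]]
  | j + 1 => (fam E w j).flatMap (fun l => (E.filter (fun e => l.all (fun f => crW w e f))).map
      (fun e => e :: l))

theorem mem_fam {E w : List (ℕ × ℕ)} {j : ℕ} {l : List (ℕ × ℕ)} : l ∈ fam E w j ↔
    l.length = j ∧ (∀ e ∈ l, e ∈ E) ∧ l.Pairwise (Cr (posW w)) := by
  induction j generalizing l with
  | zero =>
    rw [fam, List.mem_singleton]
    constructor
    · rintro rfl
      exact ⟨rfl, by simp, List.Pairwise.nil⟩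
    · rintro ⟨h, -⟩
      exact List.length_eq_zero_iff.1 h
  | succ j ih =>
    rw [fam, List.mem_flatMap]
    constructor
    · rintro ⟨l', hl', h⟩
      rw [List.mem_map] at h
      obtain ⟨e, he, rfl⟩ := h
      rw [List.mem_filter, List.all_eq_true] at he
      obtain ⟨h1, h2, h3⟩ := ih.1 hl'
      refine ⟨by simp [h1], ?_, ?_⟩
      · intro f hf
        rcases List.mem_cons.1 hf with rfl | hf
        · exact he.1
        · exact h2 f hf
      · rw [List.pairwise_cons]
        exact ⟨fun f hf => crW_iff.1 (he.2 f hf), h3⟩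
    · rintro ⟨h1, h2, h3⟩
      cases l with
      | nil => simp at h1
      | cons e l =>
        rw [List.pairwise_cons] at h3
        refine ⟨l, ih.2 ⟨by simpa using h1, fun f hf => h2 f (List.mem_cons_of_mem _ hf), h3.2⟩, ?_⟩
        rw [List.mem_map]
        refine ⟨e, ?_, rfl⟩
        rw [List.mem_filter, List.all_eq_true]
        exact ⟨h2 e (by simp), fun f hf => crW_iff.2 (h3.1 f hf)⟩

theorem fam_empty {E w : List (ℕ × ℕ)} {k : ℕ} : (fam E w k).isEmpty = true ↔ NoTwist k E (posW w) := by
  rw [List.isEmpty_iff]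
  unfold NoTwist
  constructor
  · rintro h ⟨S, hS1, hS2, hS3⟩
    have h1 : S.toList ∈ fam E w k := by
      rw [mem_fam]
      refine ⟨by rw [Finset.length_toList, hS1], fun e he => hS2 e (Finset.mem_toList.1 he), ?_⟩
      refine List.Nodup.pairwise_of_forall_ne (Finset.nodup_toList S) fun e he f hf hne => ?_
      exact hS3 e (Finset.mem_toList.1 he) f (Finset.mem_toList.1 hf) hne
    rw [h] at h1
    exact absurd h1 (List.not_mem_nil)
  · intro h
    by_contra hne
    obtain ⟨l, hl⟩ := List.exists_mem_of_ne_nil _ hne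
    rw [mem_fam] at hl
    obtain ⟨h1, h2, h3⟩ := hl
    have hnd : l.Nodup := by
      refine h3.imp ?_
      rintro e f hef rfl
      exact Cr_irrefl hef
    apply h
    refine ⟨l.toFinset, by rw [List.toFinset_card_of_nodup hnd, h1],
      fun e he => h2 e (List.mem_toFinset.1 he), ?_⟩
    intro e he f hf hef
    have hsymm : Std.Symm (Cr (posW w)) := ⟨fun _ _ h => Cr_symm h⟩
    exact List.Pairwise.forall h3 (List.mem_toFinset.1 he) (List.mem_toFinset.1 hf) hef

/-- the verifier -/
def ver (k : ℕ) (x : (List ℕ × List (ℕ × ℕ)) × List (ℕ × ℕ)) : Bool :=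
  isGraphB x.1.1 x.1.2 && (x.1.1.all (fun u => x.1.1.all (fun v =>
    !decide (posW x.2 u = posW x.2 v) || decide (u = v))) && (fam x.1.2 x.2 k).isEmpty)

section poly

variable {α : Type} [TEnc α]

theorem poly_posW {w : α → List (ℕ × ℕ)} {v : α → ℕ} (hw : Poly w) (hv : Poly v) :
    Poly (fun a => posW (w a) (v a)) := by
  unfold posW
  fun_prop

attribute [local fun_prop] poly_posW isGraphB_poly

theorem poly_crW {w : α → List (ℕ × ℕ)} {e f : α → ℕ × ℕ} (hw : Poly w) (he : Poly e) (hf : Poly f) :
    Poly (fun a => crW (w a) (e a) (f a)) := by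
  unfold crW crB
  fun_prop

attribute [local fun_prop] poly_crW

theorem poly_fam (k : ℕ) {E w : α → List (ℕ × ℕ)} (hE : Poly E) (hw : Poly w) :
    Poly (fun a => fam (E a) (w a) k) := by
  induction k with
  | zero => exact NPC.Poly.const _
  | succ k ih =>
    simp only [fam]
    fun_prop

attribute [local fun_prop] poly_fam

theorem poly_ver (k : ℕ) : Poly (ver k) := by
  unfold ver
  fun_prop

end poly

theorem posW_map {V : List ℕ} {r : ℕ → ℕ} {v : ℕ} (hv : v ∈ V) :
    posW (V.map (fun v => (v, r v))) v = r v := by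
  unfold posW
  have h1 : ∀ p ∈ (V.map (fun v => (v, r v))).filter (fun p => decide (p.1 = v)), p = (v, r v) := by
    intro p hp
    rw [List.mem_filter, List.mem_map] at hp
    obtain ⟨⟨u, _, rfl⟩, h2⟩ := hp
    have h3 : u = v := by simpa using h2
    rw [h3]
  have h2 : (V.map (fun v => (v, r v))).filter (fun p => decide (p.1 = v)) ≠ [] := by
    intro h
    have h3 : (v, r v) ∈ (V.map (fun v => (v, r v))).filter (fun p => decide (p.1 = v)) := by
      rw [List.mem_filter, List.mem_map]
      exact ⟨⟨v, hv, rfl⟩, by simp⟩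
    rw [h] at h3
    exact absurd h3 (List.not_mem_nil)
  obtain ⟨q, l, hl⟩ := List.exists_cons_of_ne_nil h2
  rw [hl]
  have h3 := h1 q (by rw [hl]; simp)
  rw [List.head?_cons, Option.getD_some, h3]

/-- the rank of a position -/
def rk (V : List ℕ) (pos : ℕ → ℕ) (v : ℕ) : ℕ := (V.toFinset.filter (fun u => pos u < pos v)).card

theorem rk_lt {V : List ℕ} {pos : ℕ → ℕ} {u v : ℕ} (hu : u ∈ V) (h : pos u < pos v) :
    rk V pos u < rk V pos v := by
  unfold rk
  apply Finset.card_lt_card
  rw [Finset.ssubset_iff_of_subset]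
  · refine ⟨u, Finset.mem_filter.2 ⟨List.mem_toFinset.2 hu, h⟩, fun h1 => ?_⟩
    exact lt_irrefl _ (Finset.mem_filter.1 h1).2
  · intro x hx
    rw [Finset.mem_filter] at hx ⊢
    exact ⟨hx.1, hx.2.trans h⟩

theorem rk_le {V : List ℕ} {pos : ℕ → ℕ} {u v : ℕ} (h : pos u ≤ pos v) : rk V pos u ≤ rk V pos v := by
  unfold rk
  apply Finset.card_le_card
  intro x hx
  rw [Finset.mem_filter] at hx ⊢
  exact ⟨hx.1, lt_of_lt_of_le hx.2 h⟩

theorem rk_lt_iff {V : List ℕ} {pos : ℕ → ℕ} {u v : ℕ} (hu : u ∈ V) :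
    rk V pos u < rk V pos v ↔ pos u < pos v := by
  constructor
  · intro h
    by_contra hcon
    exact absurd (rk_le (V := V) (not_lt.1 hcon)) (not_le.2 h)
  · exact rk_lt hu

theorem rk_inj {V : List ℕ} {pos : ℕ → ℕ} {u v : ℕ} (hu : u ∈ V) (hv : v ∈ V)
    (h : rk V pos u = rk V pos v) : pos u = pos v := by
  rcases lt_trichotomy (pos u) (pos v) with h1 | h1 | h1
  · have := rk_lt hu h1
    omega
  · exact h1
  · have := rk_lt hv h1
    omega

theorem mem : Pool.Agent.Q229.QP4.MemStm := by
  intro k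
  refine inNPP_of (poly_ver k) (Polynomial.X * (Polynomial.C 5 * Polynomial.X + 4) + 1) ?_
  rintro ⟨V, E⟩
  simp only [ver, Bool.and_eq_true, isGraphB_iff, List.all_eq_true, Bool.or_eq_true,
    Bool.not_eq_true', decide_eq_false_iff_not, decide_eq_true_eq, fam_empty]
  constructor
  · rintro ⟨hG, pos, hinj, hnt⟩
    obtain ⟨r, hr⟩ : ∃ r : ℕ → ℕ, r = rk V pos := ⟨_, rfl⟩
    have hpw : ∀ v ∈ V, posW (V.map (fun v => (v, r v))) v = r v := fun v hv => posW_map hv
    refine ⟨V.map (fun v => (v, r v)), ?_, hG, ?_, ?_⟩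
    · have hrle : ∀ v, r v ≤ V.length := by
        intro v
        rw [hr]
        unfold rk
        exact (Finset.card_filter_le _ _).trans (List.toFinset_card_le V)
      have h1 := length_lt_sz V
      have h2 : sz (V.map (fun v => (v, r v))) ≤
          (V.map (fun v => (v, r v))).length * (5 * sz V + 3 + 1) + 1 := by
        refine sz_le_length_mul _ _ ?_
        intro p hp
        rw [List.mem_map] at hp
        obtain ⟨v, hv, rfl⟩ := hp
        have e1 := sz_le_of_mem hv
        have e2 := sz_nat_le (r v)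
        have e3 := Poly.size_le_self (r v)
        have e4 := hrle v
        rw [sz_pair]
        omega
      rw [List.length_map] at h2
      simp only [Polynomial.eval_add, Polynomial.eval_mul, Polynomial.eval_X, Polynomial.eval_C,
        Polynomial.eval_one, Polynomial.eval_ofNat]
      refine h2.trans (Nat.add_le_add_right (Nat.mul_le_mul ?_ ?_) 1)
      · rw [sz_pair]; omega
      · rw [sz_pair]; omega
    · intro u hu v hv
      rw [hpw u hu, hpw v hv, ← imp_iff_not_or]
      intro h
      rw [hr] at h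
      exact hinj u hu v hv (rk_inj hu hv h)
    · rintro ⟨S, hS1, hS2, hS3⟩
      apply hnt
      refine ⟨S, hS1, hS2, fun e he f hf hne => ?_⟩
      have h1 := hS3 e he f hf hne
      have he1 := (hG.2.1 e (hS2 e he)).1
      have he2 := (hG.2.1 e (hS2 e he)).2.1
      have hf1 := (hG.2.1 f (hS2 f hf)).1
      have hf2 := (hG.2.1 f (hS2 f hf)).2.1
      unfold Cr cr at h1 ⊢
      simp only [hpw _ he1, hpw _ he2, hpw _ hf1, hpw _ hf2] at h1
      rw [hr] at h1
      simp only [min_lt_iff, lt_min_iff, max_lt_iff, lt_max_iff, rk_lt_iff he1, rk_lt_iff he2,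
        rk_lt_iff hf1, rk_lt_iff hf2] at h1 ⊢
      exact h1
  · rintro ⟨w, -, hG, hinj, hnt⟩
    refine ⟨hG, posW w, fun u hu v hv h => ?_, hnt⟩
    rcases hinj u hu v hv with h1 | h1
    · exact absurd h h1
    · exact h1

end Pool.Agent.Q224.QP4
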